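import Pool.Agent.W601.RP.Stm2

set_option autoImplicit false

namespace Pool.Agent.W369.RP

open Pool.Agent.W601.RP

theorem loc : S_NODE → S_LOC := by
  intro hN q q' t h
  have hg : gam q t = gam q' t := by
    unfold gam
    rw [h t le_rfl]
  by_cases ht : IsNode t
  · have hn : nL (lt t) ≤ t := (hN.2.2.1 t ht).2.2.2.1
    have hp : pre q (nL (lt t)) = pre q' (nL (lt t)) := by
      unfold pre
      refine List.map_congr_left fun i hi => ?_
      have hi' : i < nL (lt t) := List.mem_range.1 hi
      exact h i (by omega)
    unfold x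
    rw [hp, hg]
  · unfold x
    rw [if_neg (fun h' => ht h'.1), if_neg (fun h' => ht h'.1), hg]

end Pool.Agent.W369.RP
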